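import Pool.Agent.U167.SA.Stm
import Mathlib

/-!
Project SA, package PERC: `PP` is the probability in the infinite volume.
-/

set_option autoImplicit false

namespace Pool.Agent.U97.SA

open H974 Filter Topology MeasureTheory
open Pool.Agent.U167.SA

open Classical in
/-- the open edges of a finite set -/
noncomputable def op (S : Finset Edg) (ω : Edg → Bool) : Finset Edg :=
  S.filter (fun e => ω e = true)

theorem mem_op {S : Finset Edg} {ω : Edg → Bool} {e : Edg} :
    e ∈ op S ω ↔ e ∈ S ∧ ω e = true := by
  unfold op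
  rw [Finset.mem_filter]

/-- the cell of a finite configuration -/
def cell (S F : Finset Edg) : Set (Edg → Bool) := {ω | op S ω = F}

open Classical in
theorem cell_eq {S F : Finset Edg} (hF : F ⊆ S) :
    cell S F = Set.pi (S : Set Edg) (fun e => if e ∈ F then {true} else {false}) := by
  ext ω
  simp only [Set.mem_pi, Finset.mem_coe]
  constructor
  · intro h e he
    have h' : op S ω = F := h
    by_cases heF : e ∈ F
    · rw [if_pos heF]
      rw [← h', mem_op] at heF
      exact heF.2
    · rw [if_neg heF, Set.mem_singleton_iff]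
      by_contra hc
      have : ω e = true := by simpa using hc
      apply heF
      rw [← h', mem_op]
      exact ⟨he, this⟩
  · intro h
    show op S ω = F
    ext e
    rw [mem_op]
    constructor
    · rintro ⟨he, ho⟩
      by_contra heF
      have := h e he
      rw [if_neg heF, Set.mem_singleton_iff, ho] at this
      exact absurd this (by simp)
    · intro heF
      refine ⟨hF heF, ?_⟩
      have := h e (hF heF)
      rw [if_pos heF] at this
      exact this

theorem meas_cell {S F : Finset Edg} (hF : F ⊆ S) : MeasurableSet (cell S F) := by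
  classical
  rw [cell_eq hF]
  apply MeasurableSet.pi S.countable_toSet
  intro e _
  exact (Set.toFinite _).measurableSet

theorem coin_singleton (b : Bool) :
    (PMF.uniformOfFintype Bool).toMeasure {b} = 1 / 2 := by
  rw [PMF.toMeasure_apply_singleton _ _ (MeasurableSet.singleton b),
    PMF.uniformOfFintype_apply]
  simp

instance : IsProbabilityMeasure percE := by
  unfold percE
  infer_instance

theorem percE_cell {S F : Finset Edg} (hF : F ⊆ S) :
    percE.real (cell S F) = (1 / 2 : ℝ) ^ S.card := by
  classical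
  rw [cell_eq hF, measureReal_def]
  unfold percE
  rw [Measure.infinitePi_pi]
  · have : ∀ e ∈ S, (PMF.uniformOfFintype Bool).toMeasure
        ((if e ∈ F then {true} else {false} : Set Bool)) = 1 / 2 := by
      intro e _
      split_ifs
      · exact coin_singleton true
      · exact coin_singleton false
    rw [Finset.prod_congr rfl this, Finset.prod_const]
    simp
  · intro e _
    exact (Set.toFinite _).measurableSet

theorem event_eq (S : Finset Edg) (A : Finset Edg → Prop) [DecidablePred A] :
    {ω | A (op S ω)} = ⋃ F ∈ S.powerset.filter A, cell S F := by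
  ext ω
  simp only [Set.mem_iUnion, exists_prop, Finset.mem_filter, Finset.mem_powerset]
  constructor
  · intro h
    exact ⟨op S ω, ⟨Finset.filter_subset _ _, h⟩, rfl⟩
  · rintro ⟨F, ⟨_, h⟩, hF⟩
    have hF' : op S ω = F := hF
    show A (op S ω)
    rw [hF']
    exact h

theorem meas_event (S : Finset Edg) (A : Finset Edg → Prop) : MeasurableSet {ω | A (op S ω)} := by
  classical
  rw [event_eq]
  apply Finset.measurableSet_biUnion
  intro F hF
  exact meas_cell (Finset.mem_powerset.1 (Finset.mem_filter.1 hF).1)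

/-- finite dimensional laws -/
theorem percE_event (S : Finset Edg) (A : Finset Edg → Prop) :
    percE.real {ω | A (op S ω)} = Pr (fun _ => (1 / 2 : ℝ)) S A := by
  classical
  rw [event_eq, measureReal_biUnion_finset]
  · unfold Pr Ex
    rw [Finset.sum_filter]
    apply Finset.sum_congr rfl
    intro F hF
    have hFS := Finset.mem_powerset.1 hF
    rw [percE_cell hFS, Finset.prod_const, Finset.prod_const]
    have e : (1 / 2 : ℝ) ^ F.card * (1 - 1 / 2 : ℝ) ^ (S \ F).card = (1 / 2 : ℝ) ^ S.card := by
      have : (1 - 1 / 2 : ℝ) = 1 / 2 := by norm_num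
      rw [this, ← pow_add]
      congr 1
      rw [Finset.card_sdiff_of_subset hFS]
      have := Finset.card_le_card hFS
      omega
    rw [e]
    show _ = (1 / 2 : ℝ) ^ S.card * ind (A F)
    by_cases h : A F
    · rw [if_pos h, ind_of h, mul_one]
    · rw [if_neg h]
      simp [ind, h]
  · intro F _ F' _ hne
    apply Set.disjoint_left.2
    intro ω h1 h2
    exact hne (h1.symm.trans h2)
  · intro F hF
    exact meas_cell (Finset.mem_powerset.1 (Finset.mem_filter.1 hF).1)

theorem op_mono {S T : Finset Edg} (h : S ⊆ T) (ω : Edg → Bool) : op S ω ⊆ op T ω := by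
  intro e he
  rw [mem_op] at he ⊢
  exact ⟨h he.1, he.2⟩

theorem Hit_mono {G : Set Edg} {A : Set Vtx} {n : ℤ} {F F' : Finset Edg} (h : F ⊆ F')
    (hF : Hit G A n F) : Hit G A n F' := by
  obtain ⟨u, hu, v, hv, hr⟩ := hF
  exact ⟨u, hu, v, hv, hr.mono (Set.inter_subset_inter_left _ (by exact_mod_cast h))⟩

/-- every edge is in a large box -/
theorem mem_boxE_large (e : Edg) : ∃ M : ℕ, e ∈ boxE M := by
  obtain ⟨x, y, b⟩ := e
  refine ⟨x.natAbs + y.natAbs + 1, ?_⟩
  unfold boxE
  cases b
  · rw [mem_RE_false]; omega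
  · rw [mem_RE_true]; omega

/-- connections use finitely many edges -/
theorem reach_fin (G : Set Edg) (ω : Edg → Bool) {a b : Vtx}
    (h : Reach ({e | ω e = true} ∩ G) a b) :
    ∃ M : ℕ, Reach ((↑(op (boxE M) ω) : Set Edg) ∩ G) a b := by
  induction h with
  | refl => exact ⟨0, Reach.refl _ _⟩
  | tail _ hs ih =>
    obtain ⟨e, he, h1⟩ := hs
    obtain ⟨M, hM⟩ := ih
    obtain ⟨M', hM'⟩ := mem_boxE_large e
    refine ⟨max M M', (hM.mono ?_).trans (Adj.reach ⟨e, ⟨?_, he.2⟩, h1⟩)⟩
    · exact Set.inter_subset_inter_left _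
        (by exact_mod_cast op_mono (boxE_mono (le_max_left _ _)) ω)
    · rw [Finset.mem_coe, mem_op]
      exact ⟨boxE_mono (le_max_right _ _) hM', he.1⟩

theorem t_PERC : PercStm := by
  intro G A n
  have hmono : Monotone (PM G A n) := by
    intro M M' h
    exact Pr_mono_set (okq (by norm_num) (by norm_num)) (boxE_mono h)
      (fun F F' h1 _ h2 => Hit_mono h1 h2)
  have hbdd : BddAbove (Set.range (PM G A n)) := by
    refine ⟨1, ?_⟩
    rintro _ ⟨M, rfl⟩
    exact Pr_le_one (okq (by norm_num) (by norm_num)) _ _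
  have h1 : Tendsto (PM G A n) atTop (𝓝 (PP G A n)) := tendsto_atTop_ciSup hmono hbdd
  have hU : {ω : Edg → Bool | ∃ u ∈ A, ∃ v, col v = n ∧ Reach ({e | ω e = true} ∩ G) u v} =
      ⋃ M : ℕ, {ω | Hit G A n (op (boxE M) ω)} := by
    ext ω
    rw [Set.mem_iUnion]
    constructor
    · rintro ⟨u, hu, v, hv, hr⟩
      obtain ⟨M, hM⟩ := reach_fin G ω hr
      exact ⟨M, u, hu, v, hv, hM⟩
    · rintro ⟨M, u, hu, v, hv, hr⟩
      refine ⟨u, hu, v, hv, hr.mono (Set.inter_subset_inter_left _ ?_)⟩
      intro e he
      rw [Finset.mem_coe, mem_op] at he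
      exact he.2
  have h2 : Tendsto (fun M : ℕ => percE {ω | Hit G A n (op (boxE M) ω)}) atTop
      (𝓝 (percE (⋃ M : ℕ, {ω | Hit G A n (op (boxE M) ω)}))) := by
    refine tendsto_measure_iUnion_atTop ?_
    intro M M' h ω hω
    exact Hit_mono (op_mono (boxE_mono h) ω) hω
  have h3 := (ENNReal.tendsto_toReal (measure_ne_top percE _)).comp h2
  have h4 : (fun M : ℕ => (percE {ω | Hit G A n (op (boxE M) ω)}).toReal) = PM G A n := by
    funext M
    exact percE_event (boxE M) (Hit G A n)
  rw [hU]
  exact tendsto_nhds_unique h1 (h4 ▸ h3)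

end Pool.Agent.U97.SA
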