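import Pool.Agent.U167.SA.Stm6

/-! Project SA (helper167), package RATEG: polynomial rate of convergence of the ratios for varying
outer domains. -/

set_option autoImplicit false

namespace Pool.Agent.U97.SA

open H974 Finset Filter Topology Pool.Agent.U167.SA

/-- the ratio converges with the rate given by the swapping inequality -/
theorem rateG_abs {ι : Type} {ρ : ι → ℕ} [(comap ρ atTop).NeBot] {X Y : ι → ℝ} {θ θ' α : ℝ} {T : ℕ}
    {l : ℝ} (hθ0 : 0 ≤ θ) (hθ1 : θ < 1)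
    (hθθ : θ ≤ θ') (hα : (64 : ℝ) ^ (-α) = θ') (hα0 : 0 < α)
    (hsw : ∀ (K : ℕ) (i j : ι), T * 64 ^ K ≤ ρ i → T * 64 ^ K ≤ ρ j →
      X i * Y j ≤ X j * Y i + θ ^ K * (X i * Y j))
    (hX0 : ∀ i, 0 ≤ X i) (hY : ∀ᶠ i in comap ρ atTop, 0 < Y i)
    (hT : Tendsto (fun i => X i / Y i) (comap ρ atTop) (𝓝 l)) (hl : 0 ≤ l) :
    ∃ C : ℝ, ∀ᶠ i in comap ρ atTop, |X i / Y i - l| ≤ C * (ρ i : ℝ) ^ (-α) := by
  obtain ⟨q, hq⟩ : ∃ q : ℕ, q = T + 1 := ⟨_, rfl⟩
  have hq0 : 0 < q := by omega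
  refine ⟨(64 * q : ℝ) ^ α * (l / (1 - θ)), ?_⟩
  filter_upwards [hY, tendsto_comap.eventually (eventually_ge_atTop (64 * q))] with i hYn hn
  obtain ⟨n, hni⟩ : ∃ n : ℕ, n = ρ i := ⟨_, rfl⟩
  rw [← hni] at hn ⊢
  set K := Nat.log 64 (n / q) with hK
  have hnq : 64 ≤ n / q := (Nat.le_div_iff_mul_le hq0).2 hn
  have hK1 : 1 ≤ K := by
    rw [hK]
    exact Nat.log_pos (by norm_num) hnq
  have h1 : 64 ^ K ≤ n / q := Nat.pow_log_le_self 64 (by omega)
  have h1' : 64 ^ K * q ≤ n := (Nat.le_div_iff_mul_le hq0).1 h1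
  have h2 : n / q < 64 ^ (K + 1) := Nat.lt_pow_succ_log_self (by norm_num) _
  have h2' : n < 64 ^ (K + 1) * q := (Nat.div_lt_iff_lt_mul hq0).1 h2
  have hTK : T * 64 ^ K ≤ n := by
    refine le_trans ?_ h1'
    rw [mul_comm]
    exact Nat.mul_le_mul_left _ (by omega)
  have hθK0 : 0 ≤ θ ^ K := pow_nonneg hθ0 K
  have hθK : θ ^ K ≤ θ := by
    calc θ ^ K ≤ θ ^ 1 := pow_le_pow_of_le_one hθ0 hθ1.le hK1
      _ = θ := pow_one θ
  have hlow : ∀ᶠ j in comap ρ atTop, X i / Y i * (1 - θ ^ K) ≤ X j / Y j ∧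
      X j / Y j * (1 - θ ^ K) ≤ X i / Y i := by
    filter_upwards [hY, tendsto_comap.eventually (eventually_ge_atTop (T * 64 ^ K))] with j hYj hj
    have e1 := hsw K i j (hni ▸ hTK) hj
    have e2 := hsw K j i hj (hni ▸ hTK)
    constructor
    · rw [div_mul_eq_mul_div, div_le_div_iff₀ hYn hYj]
      nlinarith
    · rw [div_mul_eq_mul_div, div_le_div_iff₀ hYj hYn]
      nlinarith
  have hA : X i / Y i * (1 - θ ^ K) ≤ l := ge_of_tendsto hT (hlow.mono fun j hj => hj.1)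
  have hB : l * (1 - θ ^ K) ≤ X i / Y i :=
    le_of_tendsto (hT.mul_const (1 - θ ^ K)) (hlow.mono fun j hj => hj.2)
  set ρ' := X i / Y i with hρ
  have hρ0 : 0 ≤ ρ' := div_nonneg (hX0 i) hYn.le
  have h1θ : 0 < 1 - θ := by linarith
  have hρl : ρ' ≤ l / (1 - θ) := by
    rw [le_div_iff₀ h1θ]
    calc ρ' * (1 - θ) ≤ ρ' * (1 - θ ^ K) := mul_le_mul_of_nonneg_left (by linarith) hρ0
      _ ≤ l := hA
  have hll : l ≤ l / (1 - θ) := by
    rw [le_div_iff₀ h1θ]
    nlinarith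
  have habs : |ρ' - l| ≤ θ ^ K * (l / (1 - θ)) := by
    rw [abs_le]
    constructor
    · have : θ ^ K * l ≤ θ ^ K * (l / (1 - θ)) := mul_le_mul_of_nonneg_left hll hθK0
      linarith
    · have : θ ^ K * ρ' ≤ θ ^ K * (l / (1 - θ)) := mul_le_mul_of_nonneg_left hρl hθK0
      linarith
  refine habs.trans ?_
  have hn0 : (0 : ℝ) < n := by
    have : 0 < n := by omega
    exact_mod_cast this
  have hpow : θ ^ K ≤ (64 * q : ℝ) ^ α * (n : ℝ) ^ (-α) := by
    calc θ ^ K ≤ θ' ^ K := pow_le_pow_left₀ hθ0 hθθ K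
      _ = ((64 : ℝ) ^ K) ^ (-α) := by
          rw [← hα, ← Real.rpow_natCast, ← Real.rpow_mul (by norm_num), mul_comm,
            Real.rpow_mul (by norm_num), Real.rpow_natCast]
      _ ≤ ((n : ℝ) / (64 * q)) ^ (-α) := by
          refine Real.rpow_le_rpow_of_nonpos (by positivity) ?_ (by linarith)
          rw [div_le_iff₀ (by positivity)]
          have h3 : (n : ℝ) < (64 : ℝ) ^ (K + 1) * q := by exact_mod_cast h2'
          rw [pow_succ] at h3
          nlinarith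
      _ = (64 * q : ℝ) ^ α * (n : ℝ) ^ (-α) := by
          rw [Real.div_rpow hn0.le (by positivity), Real.rpow_neg (by positivity : (0:ℝ) ≤ 64 * q),
            div_inv_eq_mul, mul_comm]
  calc θ ^ K * (l / (1 - θ)) ≤ ((64 * q : ℝ) ^ α * (n : ℝ) ^ (-α)) * (l / (1 - θ)) :=
        mul_le_mul_of_nonneg_right hpow (div_nonneg hl h1θ.le)
    _ = _ := by ring

theorem loc_glue {G D O : Set Edg} {r m R : ℕ} (hrm : r ≤ m) (hmR : m ≤ R)
    (h : ∀ e ∈ boxE R, (e ∈ O ↔ e ∈ D)) : loc r G O = loc m (loc r G D) O := by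
  ext e
  by_cases he : e ∈ boxE m
  · rw [loc_in he]
    by_cases her : e ∈ boxE r
    · rw [loc_in her, loc_in her]
    · rw [loc_out her, loc_out her]
      exact h e (boxE_mono hmR he)
  · rw [loc_out he]
    exact loc_out fun h' => he (boxE_mono hrm h')

theorem t_RATEG : RateGStm := by
  intro D hSW hP hL
  have hSW' := hSW
  obtain ⟨m0, θ, ht0, ht1, hS⟩ := hSW'
  set θ' : ℝ := max θ (1/2) with hθ'
  have hθ'0 : 0 < θ' := lt_of_lt_of_le (by norm_num) (le_max_right _ _)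
  have hθ'1 : θ' < 1 := max_lt ht1 (by norm_num)
  set α : ℝ := -Real.logb 64 θ' with hα
  have hα0 : 0 < α := by
    rw [hα, neg_pos]
    exact Real.logb_neg (by norm_num) hθ'0 hθ'1
  have hα1 : (64 : ℝ) ^ (-α) = θ' := by
    rw [hα, neg_neg]
    exact Real.rpow_logb (by norm_num) (by norm_num) hθ'0
  refine ⟨α, hα0, ?_⟩
  intro ι O N ρ hON hcof r0 m m' W W' G G' A A' hr hr' hpos
  have hev : ∀ {p : ι → Prop}, (∀ᶠ i in comap ρ atTop, p i) ↔ ∃ R : ℕ, ∀ i, R ≤ ρ i → p i := by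
    intro p
    rw [eventually_comap, eventually_atTop]
    constructor
    · rintro ⟨R, hR⟩
      exact ⟨R, fun i hi => hR (ρ i) hi i rfl⟩
    · rintro ⟨R, hR⟩
      exact ⟨R, fun b hb i hi => hR i (hi ▸ hb)⟩
  haveI hNB : (comap ρ atTop).NeBot := by
    rw [comap_neBot_iff_frequently, frequently_atTop]
    intro R
    obtain ⟨i, hi⟩ := hcof R
    exact ⟨ρ i, hi, i, rfl⟩
  have hY' : ∀ᶠ i in comap ρ atTop, 0 < PE m' W' (loc r0 G' (O i)) A' (N i) := hev.2 hpos
  obtain ⟨m00, hR⟩ := RLG hSW hP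
  obtain ⟨m1, hm1⟩ : ∃ m1 : ℕ, m1 = m0 + m00 + r0 + m + m' + 1 := ⟨_, rfl⟩
  set w : ℝ := (1/2 : ℝ)^(boxE m1).card with hw
  have hw0 : 0 < w := by positivity
  set Y : ι → ℝ := fun i => PPm m1 (boxE m1) (loc m1 Set.univ (O i)) {v | inB m1 v} (N i) with hY
  have hO : ∀ R : ℕ, ∀ᶠ i in comap ρ atTop, (∀ e ∈ boxE R, (e ∈ O i ↔ e ∈ D)) ∧
      2 * (R:ℤ) < N i := by
    intro R
    refine hev.2 ⟨R, fun i hi => ⟨fun e he => (hON i).1 e (boxE_mono hi he), ?_⟩⟩
    have h1 := (hON i).2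
    have h2 : (R : ℤ) ≤ ρ i := by exact_mod_cast hi
    omega
  -- representation
  have rep : ∀ (k : ℕ) (V : Finset Edg → Prop) (B : Set Vtx) (H : Set Edg),
      k ≤ m1 → ∃ S : Finset (Finset Edg),
        (∀ η ∈ S, η ⊆ boxE m1) ∧ ∀ᶠ i in comap ρ atTop, PE k V (loc r0 H (O i)) B (N i) =
          ∑ η ∈ S, w * PPm m1 η (loc m1 (loc r0 H D) (O i)) B (N i) := by
    intro k V B H hk
    classical
    refine ⟨(boxE m1).powerset.filter (fun η => V (η ∩ boxE k)), fun η hη => ?_, ?_⟩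
    · rw [Finset.mem_filter, Finset.mem_powerset] at hη
      exact hη.1
    · refine hev.2 ⟨m1, fun i hi => ?_⟩
      rw [PE_up hk, loc_glue (by omega) hi (hON i).1]
      have := hL m1 (fun η => V (η ∩ boxE k)) (loc m1 (loc r0 H D) (O i)) B (N i)
      unfold PE
      convert this using 2
  obtain ⟨T, hT1, hT2⟩ := rep m W A G (by omega)
  obtain ⟨T', hT1', hT2'⟩ := rep m' W' A' G' (by omega)
  have hA1 : ∀ v ∈ A, inB m1 v := fun v hv => Pool.Agent.U167.SA.inB_mono (by omega) (hr v hv)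
  have hA1' : ∀ v ∈ A', inB m1 v := fun v hv => Pool.Agent.U167.SA.inB_mono (by omega) (hr' v hv)
  have hYpos : ∀ᶠ i in comap ρ atTop, 0 < Y i := by
    filter_upwards [hY', hT2'] with i h1 h2
    rw [h2] at h1
    obtain ⟨η, hη, h3⟩ := Finset.exists_lt_of_sum_lt (s := T') (f := fun _ => (0:ℝ))
      (g := fun η => w * PPm m1 η (loc m1 (loc r0 G' D) (O i)) A' (N i)) (by simpa using h1)
    have h4 : 0 < PPm m1 η (loc m1 (loc r0 G' D) (O i)) A' (N i) := by
      by_contra h5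
      push Not at h5
      have : w * PPm m1 η (loc m1 (loc r0 G' D) (O i)) A' (N i) ≤ 0 :=
        mul_nonpos_of_nonneg_of_nonpos hw0.le h5
      exact absurd h3 (not_lt.mpr this)
    refine h4.trans_le (PPm_mono hP (hT1' η hη) ?_ hA1')
    rintro e (h | h)
    · exact Or.inl ⟨Set.mem_univ _, h.2⟩
    · exact Or.inr h
  -- limits with rate
  have lim : ∀ (k : ℕ) (V : Finset Edg → Prop) (B : Set Vtx) (H : Set Edg)
      (S : Finset (Finset Edg)), (∀ v ∈ B, inB m1 v) → (∀ η ∈ S, η ⊆ boxE m1) →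
      (∀ᶠ i in comap ρ atTop, PE k V (loc r0 H (O i)) B (N i) =
        ∑ η ∈ S, w * PPm m1 η (loc m1 (loc r0 H D) (O i)) B (N i)) →
      ∃ c C : ℝ, 0 ≤ c ∧ (∀ᶠ i in comap ρ atTop,
          |PE k V (loc r0 H (O i)) B (N i) / Y i - c| ≤ C * (ρ i:ℝ)^(-α)) ∧
        ((∃ᶠ i in comap ρ atTop, 0 < PE k V (loc r0 H (O i)) B (N i)) → 0 < c) := by
    intro k V B H S hB hS1 hrep
    have h1 : ∀ η : Finset Edg, ∃ c C : ℝ, η ∈ S → 0 ≤ c ∧
        (∀ᶠ i in comap ρ atTop, |PPm m1 η (loc m1 (loc r0 H D) (O i)) B (N i) / Y i - c| ≤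
          C * (ρ i:ℝ)^(-α)) ∧
        ((∃ᶠ i in comap ρ atTop, 0 < PPm m1 η (loc m1 (loc r0 H D) (O i)) B (N i)) → 0 < c) := by
      intro η
      by_cases hη : η ∈ S
      · obtain ⟨c, hc0, hcT, hcp⟩ := hR (ι := ι) (l := comap ρ atTop) O N hO m1
          (by omega) η (boxE m1) (loc r0 H D) Set.univ B {v | inB m1 v} (hS1 η hη)
          subset_rfl hB (fun v hv => hv) hYpos
        obtain ⟨C, hC⟩ := rateG_abs (ρ := ρ)
          (X := fun i => PPm m1 η (loc m1 (loc r0 H D) (O i)) B (N i)) (Y := Y)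
          (T := 100 * m1) ht0 ht1 (le_max_left _ _) hα1 hα0 (by
            intro K i j h1 h2
            have h1' : 100 * 64 ^ K * m1 ≤ ρ i := by
              calc 100 * 64 ^ K * m1 = 100 * m1 * 64 ^ K := by ring
                _ ≤ ρ i := h1
            have h2' : 100 * 64 ^ K * m1 ≤ ρ j := by
              calc 100 * 64 ^ K * m1 = 100 * m1 * 64 ^ K := by ring
                _ ≤ ρ j := h2
            refine hS K m1 (100 * 64 ^ K * m1) η (boxE m1) (loc m1 (loc r0 H D) (O i))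
              (loc m1 (loc r0 H D) (O j))
              (loc m1 Set.univ (O i)) (loc m1 Set.univ (O j)) B {v | inB m1 v} (N i) (N j)
              (by omega) (by omega)
              (hS1 η hη) subset_rfl hB (fun v hv => hv) le_rfl ?_ ?_ ?_
              ?_ ?_
            · intro e he
              by_cases h : e ∈ boxE m1
              · exact ⟨(loc_in h).trans (loc_in h).symm, (loc_in h).trans (loc_in h).symm⟩
              · have h3 := ((hON i).1 e (boxE_mono h1' he)).trans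
                  ((hON j).1 e (boxE_mono h2' he)).symm
                exact ⟨((loc_out h).trans h3).trans (loc_out h).symm,
                  ((loc_out h).trans h3).trans (loc_out h).symm⟩
            · intro e he
              exact ⟨(loc_out he).trans (loc_out he).symm, (loc_out he).trans (loc_out he).symm⟩
            · intro e he h
              exact (loc_out h).trans ((hON i).1 e (boxE_mono h1' he))
            · have h3 := (hON i).2
              have h4 : ((100 * 64 ^ K * m1 : ℕ) : ℤ) ≤ ρ i := by exact_mod_cast h1'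
              omega
            · have h3 := (hON j).2
              have h4 : ((100 * 64 ^ K * m1 : ℕ) : ℤ) ≤ ρ j := by exact_mod_cast h2'
              omega)
          (fun i => (hP.1 _ _ _ _ _).1) hYpos hcT hc0
        exact ⟨c, C, fun _ => ⟨hc0, hC, hcp⟩⟩
      · exact ⟨0, 0, fun h => absurd h hη⟩
    choose c C hc using h1
    refine ⟨∑ η ∈ S, w * c η, ∑ η ∈ S, w * C η,
      Finset.sum_nonneg fun η hη => mul_nonneg hw0.le (hc η hη).1, ?_, ?_⟩
    · have h2 : ∀ᶠ i in comap ρ atTop, ∀ η ∈ S,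
          |PPm m1 η (loc m1 (loc r0 H D) (O i)) B (N i) / Y i - c η| ≤ C η * (ρ i:ℝ)^(-α) := by
        rw [Filter.eventually_all_finset]
        exact fun η hη => (hc η hη).2.1
      filter_upwards [h2, hrep] with i hn hrepi
      have h3 : PE k V (loc r0 H (O i)) B (N i) / Y i - ∑ η ∈ S, w * c η =
          ∑ η ∈ S, w * (PPm m1 η (loc m1 (loc r0 H D) (O i)) B (N i) / Y i - c η) := by
        rw [hrepi, Finset.sum_div, ← Finset.sum_sub_distrib]
        exact Finset.sum_congr rfl fun η _ => by ring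
      rw [h3, Finset.sum_mul]
      refine (Finset.abs_sum_le_sum_abs _ _).trans (Finset.sum_le_sum fun η hη => ?_)
      rw [abs_mul, abs_of_pos hw0, mul_assoc]
      exact mul_le_mul_of_nonneg_left (hn η hη) hw0.le
    · intro hfr
      have h3 : ∃ η ∈ S, ∃ᶠ i in comap ρ atTop,
          0 < PPm m1 η (loc m1 (loc r0 H D) (O i)) B (N i) := by
        by_contra hcon
        push Not at hcon
        have h4 : ∀ᶠ i in comap ρ atTop, ∀ η ∈ S,
            ¬ 0 < PPm m1 η (loc m1 (loc r0 H D) (O i)) B (N i) := by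
          rw [Filter.eventually_all_finset]
          intro η hη
          exact (hcon η hη).mono fun x hx => not_lt.mpr hx
        obtain ⟨i, h5, h6, h7⟩ := (hfr.and_eventually (h4.and hrep)).exists
        rw [h7] at h5
        have h8 : ∑ η ∈ S, w * PPm m1 η (loc m1 (loc r0 H D) (O i)) B (N i) ≤ 0 :=
          Finset.sum_nonpos fun η hη =>
            mul_nonpos_of_nonneg_of_nonpos hw0.le (not_lt.mp (h6 η hη))
        linarith
      obtain ⟨η, hη, h4⟩ := h3
      exact Finset.sum_pos' (fun η hη => mul_nonneg hw0.le (hc η hη).1)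
        ⟨η, hη, mul_pos hw0 ((hc η hη).2.2 h4)⟩
  obtain ⟨a, C1, ha0, haT, -⟩ := lim m W A G T hA1 hT1 hT2
  obtain ⟨b, C2, hb0, hbT, hbp⟩ := lim m' W' A' G' T' hA1' hT1' hT2'
  have hb : 0 < b := hbp hY'.frequently
  -- the denominator is at least `b / 2`
  have hsmall : ∀ᶠ i in comap ρ atTop, C2 * (ρ i:ℝ)^(-α) ≤ b / 2 := by
    have h0 : Tendsto (fun n : ℕ => C2 * (n:ℝ)^(-α)) atTop (𝓝 (C2 * 0)) :=
      ((tendsto_rpow_neg_atTop hα0).comp tendsto_natCast_atTop_atTop).const_mul C2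
    have h1 : Tendsto (fun i => C2 * (ρ i:ℝ)^(-α)) (comap ρ atTop) (𝓝 (C2 * 0)) :=
      h0.comp tendsto_comap
    rw [mul_zero] at h1
    exact (h1.eventually (gt_mem_nhds (half_pos hb))).mono fun _ h => le_of_lt h
  have hfin : ∀ᶠ i in comap ρ atTop,
      |PE m W (loc r0 G (O i)) A (N i) / PE m' W' (loc r0 G' (O i)) A' (N i) - a / b| ≤
        ((C1 * b + a * C2) * (2 / b ^ 2)) * (ρ i : ℝ)^(-α) := by
    filter_upwards [haT, hbT, hYpos, hsmall] with i h1 h2 h3 h4
    set x := PE m W (loc r0 G (O i)) A (N i) / Y i with hx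
    set y := PE m' W' (loc r0 G' (O i)) A' (N i) / Y i with hy
    have hq : PE m W (loc r0 G (O i)) A (N i) / PE m' W' (loc r0 G' (O i)) A' (N i) = x / y := by
      rw [hx, hy, div_div_div_cancel_right₀ h3.ne']
    rw [hq]
    have hyb : b / 2 ≤ y := by
      have := (abs_le.1 h2).1
      linarith
    have hy0 : 0 < y := lt_of_lt_of_le (half_pos hb) hyb
    have h5 : x / y - a / b = ((x - a) * b - a * (y - b)) / (y * b) := by
      field_simp
      ring
    rw [h5, abs_div, abs_of_pos (mul_pos hy0 hb)]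
    have h6 : |(x - a) * b - a * (y - b)| ≤ (C1 * b + a * C2) * (ρ i:ℝ)^(-α) := by
      calc |(x - a) * b - a * (y - b)| ≤ |(x - a) * b| + |a * (y - b)| := abs_sub _ _
        _ = |x - a| * b + a * |y - b| := by rw [abs_mul, abs_mul, abs_of_pos hb, abs_of_nonneg ha0]
        _ ≤ (C1 * (ρ i:ℝ)^(-α)) * b + a * (C2 * (ρ i:ℝ)^(-α)) := by gcongr
        _ = _ := by ring
    have h7 : (b / 2) * b ≤ y * b := mul_le_mul_of_nonneg_right hyb hb.le
    have h8 : 0 ≤ (C1 * b + a * C2) * (ρ i:ℝ)^(-α) := (abs_nonneg _).trans h6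
    calc |(x - a) * b - a * (y - b)| / (y * b)
        ≤ ((C1 * b + a * C2) * (ρ i:ℝ)^(-α)) / ((b / 2) * b) := by
          gcongr
      _ = _ := by
          field_simp
  obtain ⟨R2, hR2⟩ := hev.1 hfin
  exact ⟨R2, a / b, (C1 * b + a * C2) * (2 / b ^ 2), hR2⟩

end Pool.Agent.U97.SA
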